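import Mathlib

/-!
MP_b94b02_co, Q1 disproved: the excedance polynomial of the even permutations of five letters is
`1 + 11 t + 36 t ^ 2 + 11 t ^ 3 + t ^ 4 = (t ^ 2 + 11 t / 2 + 1) ^ 2 + 15 t ^ 2 / 4`, which has no
real zero at all.
-/

set_option autoImplicit false

namespace Pool.Agent.Results.MP_b94b02_co.EvenFive

open Finset Polynomial

/-- number of excedances of a permutation -/
def exc {n : ℕ} (σ : Equiv.Perm (Fin n)) : ℕ := (univ.filter (fun i => i < σ i)).card

/-- excedance polynomial of the even permutations -/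
noncomputable def Aplus (n : ℕ) : ℤ[X] :=
  ∑ σ ∈ (univ : Finset (Equiv.Perm (Fin n))).filter (fun σ => Equiv.Perm.sign σ = 1), X ^ exc σ

/-- excedance polynomial of the odd permutations -/
noncomputable def Aminus (n : ℕ) : ℤ[X] :=
  ∑ σ ∈ (univ : Finset (Equiv.Perm (Fin n))).filter (fun σ => Equiv.Perm.sign σ = -1), X ^ exc σ

/-- every complex root is real -/
def RealRooted (p : ℤ[X]) : Prop := ∀ z : ℂ, aeval z p = 0 → z.im = 0

theorem counts : ∀ k ∈ range 6, (((univ : Finset (Equiv.Perm (Fin 5))).filter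
    (fun σ => Equiv.Perm.sign σ = 1)).filter (fun σ => exc σ = k)).card =
    if k = 0 then 1 else if k = 1 then 11 else if k = 2 then 36 else if k = 3 then 11 else
      if k = 4 then 1 else 0 := by
  decide +kernel

theorem Aplus_five : Aplus 5 = 1 + 11 * X + 36 * X ^ 2 + 11 * X ^ 3 + X ^ 4 := by
  unfold Aplus
  rw [← Finset.sum_fiberwise_of_maps_to (s := (univ : Finset (Equiv.Perm (Fin 5))).filter
    (fun σ => Equiv.Perm.sign σ = 1)) (t := range 6) (g := exc)]
  · have h : ∀ k ∈ range 6, (∑ σ ∈ ((univ : Finset (Equiv.Perm (Fin 5))).filter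
        (fun σ => Equiv.Perm.sign σ = 1)).filter (fun σ => exc σ = k), (X : ℤ[X]) ^ exc σ) =
        ((if k = 0 then 1 else if k = 1 then 11 else if k = 2 then 36 else if k = 3 then 11 else
          if k = 4 then 1 else 0 : ℕ) : ℤ[X]) * X ^ k := by
      intro k hk
      rw [← counts k hk, ← nsmul_eq_mul, ← Finset.sum_const]
      apply Finset.sum_congr rfl
      intro σ hσ
      rw [(Finset.mem_filter.mp hσ).2]
    rw [Finset.sum_congr rfl h]
    simp [Finset.sum_range_succ]
  · intro σ _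
    rw [mem_range, Nat.lt_succ_iff]
    exact (Finset.card_le_univ _).trans (by simp)

/-- `A⁺_5` has no real zero, but it has complex zeros; hence it is not true that both excedance
polynomials are real-rooted for all `n ≥ 5`. -/
theorem result : (∀ x : ℝ, aeval x (Aplus 5) ≠ 0) ∧ (∃ z : ℂ, aeval z (Aplus 5) = 0 ∧ z.im ≠ 0) ∧
    ¬ ∀ n : ℕ, 5 ≤ n → RealRooted (Aplus n) ∧ RealRooted (Aminus n) := by
  have h1 : ∀ x : ℝ, aeval x (Aplus 5) ≠ 0 := by
    intro x
    rw [Aplus_five]
    simp only [map_add, map_mul, map_one, map_pow, aeval_X, map_ofNat]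
    nlinarith [sq_nonneg (x ^ 2 + 11 / 2 * x + 1), sq_nonneg x, sq_nonneg (x ^ 2 - 1), sq_nonneg (x + 1)]
  have h2 : ∃ z : ℂ, aeval z (Aplus 5) = 0 := by
    have hdeg : ((Aplus 5).map (Int.castRingHom ℂ)).degree ≠ 0 := by
      rw [Aplus_five]
      have : (1 + 11 * X + 36 * X ^ 2 + 11 * X ^ 3 + X ^ 4 : ℤ[X]).map (Int.castRingHom ℂ) =
          (X ^ 4 + (11 * X ^ 3 + 36 * X ^ 2 + 11 * X + 1) : ℂ[X]) := by
        simp
        ring
      rw [this]
      have h3 : (X ^ 4 + (11 * X ^ 3 + 36 * X ^ 2 + 11 * X + 1) : ℂ[X]).degree = 4 := by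
        compute_degree!
      rw [h3]
      norm_num
    obtain ⟨z, hz⟩ := IsAlgClosed.exists_root _ hdeg
    refine ⟨z, ?_⟩
    rw [IsRoot.def, eval_map] at hz
    rw [aeval_def]
    exact hz
  obtain ⟨z, hz⟩ := h2
  have h3 : z.im ≠ 0 := by
    intro him
    apply h1 z.re
    have hz' : (z.re : ℂ) = z := Complex.ext (by simp) (by simp [him])
    rw [← hz'] at hz
    have h4 : aeval ((algebraMap ℝ ℂ) z.re) (Aplus 5) = (algebraMap ℝ ℂ) (aeval z.re (Aplus 5)) :=
      aeval_algebraMap_apply ℂ z.re (Aplus 5)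
    have h5 : (algebraMap ℝ ℂ) (aeval z.re (Aplus 5)) = 0 := by
      rw [← h4]; exact hz
    exact (map_eq_zero (algebraMap ℝ ℂ)).mp h5
  exact ⟨h1, ⟨z, hz, h3⟩, fun h => h3 ((h 5 le_rfl).1 z hz)⟩

end Pool.Agent.Results.MP_b94b02_co.EvenFive
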